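import Mathlib
import Pool.Agent.Lib.H13W.Final
import Pool.Agent.Lib.H13F2.F4
import Pool.Agent.Lib.H13K.K20
import Pool.Agent.Lib.H13K.Q2

/-!
# MP_3f12fd_ag: Q1 for all complements of affine hypersurfaces and their finite coverings

Let `X` be the complement of a hypersurface `f = 0` in `ℂ ^ N`, `N ≥ 1`, where `f` is an arbitrary polynomial, and let
`Y` be a connected finite covering of `X` (for instance `Y = X`).  If the fundamental group of `Y` is a free product
of two nontrivial groups `A` and `B`, then the components of the hypersurface are level sets of one irreducible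
polynomial and `A` and `B` are free groups of finite rank.  So Q1 has the answer yes for all these varieties.
-/

set_option autoImplicit false

namespace Pool.Agent.Results.MP_3f12fd_ag.ComplementCovers

/-- The fundamental groups of smooth complex affine varieties, word for word as in the frozen statement S00153. -/
def QuasiProjective (G : Type) [Group G] : Prop :=
  ∃ (n : ℕ) (S : Set (Fin n → ℂ)),
    (∃ P : Set (MvPolynomial (Fin n) ℂ),
        S = {z : Fin n → ℂ | ∀ f ∈ P, MvPolynomial.eval z f = 0}) ∧
    (∀ p ∈ S, ∃ (m : ℕ) (g : (Fin n → ℂ) → (Fin m → ℂ)) (U : Set (Fin n → ℂ)),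
        IsOpen U ∧ p ∈ U ∧ DifferentiableOn ℂ g U ∧
        Function.Surjective (fderiv ℂ g p) ∧
        ∀ z ∈ U, (z ∈ S ↔ g z = 0)) ∧
    ∃ x : S, Nonempty (FundamentalGroup S x ≃* G)

/-- The complement of the hypersurface `f = 0`. -/
def HypersurfaceComplement {N : ℕ} (f : MvPolynomial (Fin N) ℂ) : Set (Fin N → ℂ) :=
  {z | MvPolynomial.eval z f ≠ 0}

/-- The hypersurface `f = 0` is a finite union of level sets of one irreducible polynomial. -/
def UnionOfLevelSets {N : ℕ} (f : MvPolynomial (Fin N) ℂ) : Prop :=
  ∃ (h : MvPolynomial (Fin N) ℂ) (S : Finset ℂ), Irreducible h ∧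
    ∀ z, MvPolynomial.eval z f = 0 ↔ MvPolynomial.eval z h ∈ S

/-- `G` is a free group of finite rank. -/
def FreeOfFiniteRank (G : Type) [Group G] : Prop := ∃ r : ℕ, Nonempty (G ≃* FreeGroup (Fin r))

/-- The theorem of the header. -/
theorem result (N : ℕ) (f : MvPolynomial (Fin (N + 1)) ℂ) :
    (∀ x : HypersurfaceComplement f,
      QuasiProjective (FundamentalGroup (HypersurfaceComplement f) x)) ∧
    ∀ (Y : Type) [TopologicalSpace Y] [PathConnectedSpace Y] (p : Y → HypersurfaceComplement f),
      IsCoveringMap p → (∀ x, (p ⁻¹' {x}).Finite) → ∀ (y : Y) (A B : Type) [Group A] [Group B],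
        Nonempty (FundamentalGroup Y y ≃* Monoid.Coprod A B) →
          (Nontrivial A → Nontrivial B →
            UnionOfLevelSets f ∧ FreeOfFiniteRank A ∧ FreeOfFiniteRank B) ∧
          (QuasiProjective (FundamentalGroup Y y) → QuasiProjective A ∧ QuasiProjective B) := by
  refine ⟨fun x => H13K.qp_compl f x, ?_⟩
  intro Y _ _ p hp hfin y A B _ _ he
  obtain ⟨e⟩ := he
  have key : Nontrivial A → Nontrivial B →
      UnionOfLevelSets f ∧ FreeOfFiniteRank A ∧ FreeOfFiniteRank B := by
    intro hA hB
    exact H13W.final_cover f p hp y (hfin (p y)) A B e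
  refine ⟨key, ?_⟩
  intro hq
  have hfree : ∀ (C : Type) [Group C], FreeOfFiniteRank C → QuasiProjective C := by
    intro C _ hC
    obtain ⟨r, ⟨g⟩⟩ := hC
    exact H13F2.isQP_congr g.symm (H13F2.qp_free r)
  rcases subsingleton_or_nontrivial A with hA | hA
  · exact H13K.qp_factors _ A B e (Or.inl hA) hq
  · rcases subsingleton_or_nontrivial B with hB | hB
    · exact H13K.qp_factors _ A B e (Or.inr hB) hq
    · obtain ⟨-, h1, h2⟩ := key hA hB
      exact ⟨hfree A h1, hfree B h2⟩

end Pool.Agent.Results.MP_3f12fd_ag.ComplementCovers
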